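import Pool.Agent.H15.Cpk3

set_option autoImplicit false

namespace Pool.Agent.Results.MP_1a2443_an.Yes

open ComplexConjugate Matrix Pool.Agent.H15.Cpk
open scoped ComplexOrder

variable {X : Type*}

/-- A kernel on `X`: all finite Gram matrices are positive semidefinite and the diagonal
never vanishes. -/
def IsKernel (k : X → X → ℂ) : Prop :=
  (∀ (n : ℕ) (z : Fin n → X), (Matrix.of fun i j => k (z i) (z j)).PosSemidef) ∧ ∀ x, k x x ≠ 0

/-- The block matrix with blocks `l(z_i,z_j) I - k(z_i,z_j) W_i W_j^*`. -/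
noncomputable def pick (k l : X → X → ℂ) {n N : ℕ} (z : Fin n → X)
    (W : Fin n → Matrix (Fin N) (Fin N) ℂ) : Matrix (Fin n × Fin N) (Fin n × Fin N) ℂ :=
  Matrix.of fun p q =>
    (l (z p.1) (z q.1) • (1 : Matrix (Fin N) (Fin N) ℂ)
      - k (z p.1) (z q.1) • (W p.1 * (W q.1)ᴴ)) p.2 q.2

/-- Contractive multiplier: `l(z,w) I - k(z,w) Φ(z) Φ(w)^*` is a positive matrix kernel. -/
def Contractive (k l : X → X → ℂ) {N : ℕ} (Φ : X → Matrix (Fin N) (Fin N) ℂ) : Prop :=
  ∀ (m : ℕ) (x : Fin m → X), (pick k l x fun i => Φ (x i)).PosSemidef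

/-- Complete Pick pair. -/
def CPPair (k l : X → X → ℂ) : Prop :=
  ∀ (n N : ℕ), 1 ≤ n → 1 ≤ N → ∀ (z : Fin n → X) (W : Fin n → Matrix (Fin N) (Fin N) ℂ),
    (pick k l z W).PosSemidef →
      ∃ Φ : X → Matrix (Fin N) (Fin N) ℂ, Contractive k l Φ ∧ ∀ i, Φ (z i) = W i

theorem fm_reindex {ι ι' σ σ' : Type} [Fintype ι] [Fintype ι'] [Fintype σ] [Fintype σ']
    (e : ι' ≃ ι) (f : σ' ≃ σ) (c : ι → ι → ℂ) (x : ι → σ → ℂ) :
    fm σ' (fun i j => c (e i) (e j)) (fun i => x (e i) ∘ f) (fun i => x (e i) ∘ f)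
      = fm σ c x x := by
  rw [fm_apply, fm_apply, ← e.sum_comp]
  refine Finset.sum_congr rfl fun i _ => ?_
  rw [← e.sum_comp]
  refine Finset.sum_congr rfl fun j _ => ?_
  congr 1
  exact comp_equiv_dotProduct_comp_equiv (star (x (e i))) (x (e j)) f

theorem con_reindex {ι ι' σ σ' : Type} [Fintype ι] [Fintype ι'] [Fintype σ] [Fintype σ']
    (e : ι' ≃ ι) (f : σ' ≃ σ) (cl ck : ι → ι → ℂ) (V : ι → Matrix σ σ ℂ)
    (h : ∀ x, H15.Cpk.Con cl ck V x) (y : ι' → σ' → ℂ) :
    H15.Cpk.Con (fun i j => cl (e i) (e j)) (fun i j => ck (e i) (e j))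
      (fun i => (V (e i)).submatrix f f) y := by
  have h1 := h (fun i => y (e.symm i) ∘ f.symm)
  unfold H15.Cpk.Con at h1 ⊢
  rw [← fm_reindex e f cl, ← fm_reindex e f ck] at h1
  have e1 : (fun i => (y (e.symm (e i)) ∘ f.symm) ∘ f) = y := by
    funext i a; simp
  rw [e1] at h1
  simpa only [submatrix_mulVec_equiv, Equiv.symm_apply_apply] using h1

theorem kq_of {k : X → X → ℂ} (hk : IsKernel k) : Kq k := by
  constructor
  · intro x y
    have := (hk.1 2 ![x, y]).1.apply 1 0
    simpa using this.symm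
  · intro ι _ z σ _ x
    rw [← fm_reindex (Fintype.equivFin ι).symm (Equiv.refl σ)]
    set z' := fun i => z ((Fintype.equivFin ι).symm i)
    set x' := fun i => x ((Fintype.equivFin ι).symm i) ∘ Equiv.refl σ
    have h1 : fm σ (fun i j => k (z' i) (z' j)) x' x'
        = ∑ a, star (fun i => x' i a) ⬝ᵥ ((Matrix.of fun i j => k (z' i) (z' j)) *ᵥ fun i => x' i a) := by
      simp only [fm_apply, dotProduct, mulVec, Finset.mul_sum, of_apply, Pi.star_apply]
      symm
      rw [Finset.sum_comm]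
      refine Finset.sum_congr rfl fun i _ => ?_
      rw [Finset.sum_comm]
      refine Finset.sum_congr rfl fun a _ => Finset.sum_congr rfl fun j _ => ?_
      ring
    have h2 : (0 : ℂ) ≤ fm σ (fun i j => k (z' i) (z' j)) x' x' := by
      rw [h1]
      exact Finset.sum_nonneg fun a _ => (hk.1 _ z').dotProduct_mulVec_nonneg _
    exact (Complex.le_def.mp h2).1

theorem pick_form (k l : X → X → ℂ) {n N : ℕ} (z : Fin n → X)
    (W : Fin n → Matrix (Fin N) (Fin N) ℂ) (y : Fin n × Fin N → ℂ) :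
    star y ⬝ᵥ (pick k l z W *ᵥ y)
      = fm _ (fun i j => l (z i) (z j)) (fun i a => y (i, a)) (fun i a => y (i, a))
        - fm _ (fun i j => k (z i) (z j)) (fun i => (W i)ᴴ *ᵥ fun a => y (i, a))
          (fun i => (W i)ᴴ *ᵥ fun a => y (i, a)) := by
  have h1 : star y ⬝ᵥ (pick k l z W *ᵥ y) = ∑ i, ∑ j, star (fun a => y (i, a)) ⬝ᵥ
      ((l (z i) (z j) • (1 : Matrix (Fin N) (Fin N) ℂ) - k (z i) (z j) • (W i * (W j)ᴴ)) *ᵥ
        fun a => y (j, a)) := by
    simp only [dotProduct, mulVec, pick, Fintype.sum_prod_type, of_apply, Finset.mul_sum,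
      Pi.star_apply]
    refine Finset.sum_congr rfl fun i _ => ?_
    rw [Finset.sum_comm]
  rw [h1, fm_apply, fm_apply, ← Finset.sum_sub_distrib]
  refine Finset.sum_congr rfl fun i _ => ?_
  rw [← Finset.sum_sub_distrib]
  refine Finset.sum_congr rfl fun j _ => ?_
  rw [sub_mulVec, smul_mulVec, smul_mulVec, one_mulVec, dotProduct_sub, dotProduct_smul,
    dotProduct_smul, star_mulVec, conjTranspose_conjTranspose, ← mulVec_mulVec,
    dotProduct_mulVec _ (W i), smul_eq_mul, smul_eq_mul]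

theorem pick_iff {k l : X → X → ℂ} (hk : ∀ x y, k y x = conj (k x y))
    (hl : ∀ x y, l y x = conj (l x y)) {n N : ℕ} (z : Fin n → X)
    (W : Fin n → Matrix (Fin N) (Fin N) ℂ) :
    (pick k l z W).PosSemidef ↔
      ∀ x, H15.Cpk.Con (fun i j => l (z i) (z j)) (fun i j => k (z i) (z j)) (fun i => (W i)ᴴ) x := by
  constructor
  · intro h x
    have h1 := h.dotProduct_mulVec_nonneg (fun p => x p.1 p.2)
    rw [pick_form] at h1
    have h2 := (Complex.le_def.mp h1).1
    unfold H15.Cpk.Con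
    simpa using h2
  · intro h
    refine .of_dotProduct_mulVec_nonneg ?_ ?_
    · ext p q
      have e1 : (W p.1 * (W q.1)ᴴ) p.2 q.2 = conj ((W q.1 * (W p.1)ᴴ) q.2 p.2) := by
        have : W p.1 * (W q.1)ᴴ = (W q.1 * (W p.1)ᴴ)ᴴ := by simp [conjTranspose_mul]
        rw [this]; rfl
      simp only [pick, conjTranspose_apply, of_apply, Matrix.sub_apply, Matrix.smul_apply, smul_eq_mul,
        RCLike.star_def, map_sub, map_mul, ← hk, ← hl, e1, Matrix.one_apply, eq_comm (a := q.2)]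
      split_ifs <;> simp
    · intro y
      rw [pick_form, Complex.le_def]
      have h1 := h (fun i a => y (i, a))
      unfold H15.Cpk.Con at h1
      have h2 := congrArg Complex.im
        (fm_symm (fun i j => l (z i) (z j)) (fun i j => hl _ _) (fun i a => y (i, a))
          (fun i a => y (i, a)))
      have h3 := congrArg Complex.im
        (fm_symm (fun i j => k (z i) (z j)) (fun i j => hk _ _)
          (fun i => (W i)ᴴ *ᵥ fun a => y (i, a)) (fun i => (W i)ᴴ *ᵥ fun a => y (i, a)))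
      rw [Complex.conj_im] at h2 h3
      rw [Complex.sub_re, Complex.sub_im, Complex.zero_re, Complex.zero_im]
      constructor <;> linarith

theorem cpq_of {k l : X → X → ℂ} (hk : Kq k) (hl : Kq l) (h : CPPair k l) (σ : Type)
    [Fintype σ] : CPq k l σ := by
  intro ι _ z V hV
  have hz : Glob k l (fun _ => (0 : Matrix σ σ ℂ)) := by
    intro κ _ x v
    unfold H15.Cpk.Con
    have : (fun j => (0 : Matrix σ σ ℂ) *ᵥ v j) = 0 := by funext j; simp
    rw [this, map_zero, Complex.zero_re]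
    exact hl.2 κ x σ v
  rcases isEmpty_or_nonempty ι with hι | hι
  · exact ⟨_, hz, fun i => hι.elim i⟩
  rcases isEmpty_or_nonempty σ with hσ | hσ
  · exact ⟨_, hz, fun i => Subsingleton.elim _ _⟩
  let e := (Fintype.equivFin ι).symm
  let f := (Fintype.equivFin σ).symm
  obtain ⟨Φ, h1, h2⟩ := h _ _ Fintype.card_pos Fintype.card_pos (fun i => z (e i))
    (fun i => ((V (e i)).submatrix f f)ᴴ) (by
      rw [pick_iff hk.1 hl.1]
      simpa only [conjTranspose_conjTranspose] using con_reindex e f _ _ V hV)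
  refine ⟨fun x => (Φ x)ᴴ.submatrix f.symm f.symm, ?_, ?_⟩
  · intro κ _ x v
    have h3 := (pick_iff hk.1 hl.1 _ _).mp (h1 _ fun i => x ((Fintype.equivFin κ).symm i))
    simpa only [Equiv.symm_apply_apply] using con_reindex (Fintype.equivFin κ) f.symm _ _ _ h3 v
  · intro i
    have := h2 (e.symm i)
    simp only [Equiv.apply_symm_apply] at this
    simp [this]

theorem result {X : Type*} (k l h : X → X → ℂ) (hk : IsKernel k) (hl : IsKernel l)
    (hh : IsKernel h) (hcp : CPPair k l) : CPPair k (fun x y => l x y * h x y) := by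
  have hk' := kq_of hk
  have hl' := kq_of hl
  have hh' := kq_of hh
  have hs : ∀ x y, l y x * h y x = conj (l x y * h x y) := by
    intro x y; rw [map_mul, ← hl'.1, ← hh'.1]
  intro n N _ _ z W hW
  rw [pick_iff hk'.1 hs] at hW
  obtain ⟨Φ, h1, h2⟩ := cpq_mul hk' hl' hh' hk.2 hh.2 (fun σ _ => cpq_of hk' hl' hcp σ) (Fin N)
    (Fin n) z _ hW
  refine ⟨fun x => (Φ x)ᴴ, ?_, ?_⟩
  · intro m x
    rw [pick_iff hk'.1 hs]
    simpa only [conjTranspose_conjTranspose] using h1 (Fin m) x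
  · intro i
    simp only [h2, conjTranspose_conjTranspose]

end Pool.Agent.Results.MP_1a2443_an.Yes
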